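import Mathlib
import Pool.Agent.H.MP_ffae75_co.A

set_option autoImplicit false

namespace Pool.Agent.Results.MP_ffae75_co.Neg

open Pointwise Polynomial

/-- The base-`r` `d`-simplex; coordinate `k : Fin d` stands for `k + 1`. -/
def B (r d : ℕ) : Set (Fin d → ℝ) :=
  convexHull ℝ (insert (fun k : Fin d => -(((r : ℝ) - 1) * (r : ℝ) ^ (k : ℕ)))
    (Set.range fun k => Pi.single k (1 : ℝ)))

/-- Number of lattice points of the dilate `t P`. -/
noncomputable def L {d : ℕ} (P : Set (Fin d → ℝ)) (t : ℕ) : ℕ :=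
  {x : Fin d → ℤ | (fun k => (x k : ℝ)) ∈ (t : ℝ) • P}.ncard

theorem result : ∃ r d : ℕ, 2 ≤ r ∧ 1 ≤ d ∧ ∃ p : ℚ[X],
    (∀ t : ℕ, p.eval (t : ℚ) = L (B r d) t) ∧ p.natDegree = d ∧ ∃ i ≤ d, p.coeff i < 0 := by
  refine ⟨14, 5, by norm_num, by norm_num, C 1 + C (-2144 / 120) * X + C (39550 / 120) * X ^ 2 +
    C (349980 / 120) * X ^ 3 + C (103430 / 120) * X ^ 4 + C (537824 / 120) * X ^ 5,
    fun t => ?_, by compute_degree!, 1, by norm_num, ?_⟩
  · have e : B 14 5 = Pool.Agent.H.MP_ffae75_co.simplex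
        fun k => (Pool.Agent.H.MP_ffae75_co.q0 k : ℝ) := by
      have : (fun k : Fin 5 => -((((14 : ℕ) : ℝ) - 1) * ((14 : ℕ) : ℝ) ^ (k : ℕ))) =
          -fun k => (Pool.Agent.H.MP_ffae75_co.q0 k : ℝ) := by
        funext k
        fin_cases k <;> simp [Pool.Agent.H.MP_ffae75_co.q0] <;> norm_num
      rw [B, this]
      rfl
    rw [L, e, Pool.Agent.H.MP_ffae75_co.total]
    simp only [eval_add, eval_mul, eval_C, eval_pow, eval_X]
    ring
  · simp only [coeff_add, coeff_C_mul, coeff_X_pow, coeff_X_one, coeff_C]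
    norm_num

end Pool.Agent.Results.MP_ffae75_co.Neg
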